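import Pool.Agent.Lib.MP_9bb24e_co.Final

/-!
Reflexivity of planar point sets: `rho n ≥ (4 n - 56) / 15` for all `n ≥ 3`, so the conjecture
`rho n = ⌊n / 4⌋` fails for all `n ≥ 225`.
-/

set_option autoImplicit false

namespace Pool.Agent.Results.MP_9bb24e_co.LinearLowerBound

open Pool.Agent.Lib.MP_9bb24e_co

/-- For every `n ≥ 3` there is a set of `n` points in general position all of whose
polygonizations have at least `(4 n - 56) / 15` reflex vertices. -/
theorem result (n : ℕ) (hn : 3 ≤ n) : 4 * n ≤ 15 * rho n + 56 := rho_bound n hn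

end Pool.Agent.Results.MP_9bb24e_co.LinearLowerBound
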