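import Pool.Agent.Lib.MP_9bb24e_co.V.Main

/-!
Reflexivity of planar point sets: every set of `n ≥ 3` points in general position with `h` hull
vertices has a polygonization with at most `(2 n + 1 - h) / 5` reflex vertices; in particular
`rho n ≤ (2 n - 2) / 5` for all `n ≥ 3`.
-/

set_option autoImplicit false

namespace Pool.Agent.Results.MP_9bb24e_co.TwoFifthsUpperBound

open Pool.Agent.Lib.MP_9bb24e_co

/-- Upper bound two fifths for the reflexivity: `hullN S` is the number of vertices of the convex
hull of `S`. -/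
theorem result :
    (∀ S : Finset (ℝ × ℝ), GenPos S → 3 ≤ S.card →
      5 * reflexivity S + hullN S ≤ 2 * S.card + 1) ∧
    ∀ n : ℕ, 3 ≤ n → 5 * rho n + 2 ≤ 2 * n := by
  refine ⟨fun S hS h3 => ?_, rho_le_two_fifths⟩
  obtain ⟨v, w, hI⟩ := exists_inst S hS (by omega)
  obtain ⟨r, hr, hr2⟩ := two_fifths hI
  have h2 := reflexivity_le_of_TP hI h3 hr
  omega

end Pool.Agent.Results.MP_9bb24e_co.TwoFifthsUpperBound
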